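import Pool.Agent.Helper536_UC.Defs

/-!
# Balls and Cayley graphs
-/

set_option autoImplicit false

open Filter Topology
open scoped Classical

namespace Pool.Agent.Helper536_UC

theorem self_mem_ball {V : Type} (G : SimpleGraph V) (v : V) (r : ℕ) : v ∈ ball G v r :=
  ⟨SimpleGraph.Walk.nil, by simp⟩

theorem ball_mono {V : Type} (G : SimpleGraph V) (v : V) {r r' : ℕ} (h : r ≤ r') :
    ball G v r ⊆ ball G v r' := by
  rintro x ⟨p, hp⟩
  exact ⟨p, hp.trans h⟩

theorem mem_ball_zero {V : Type} (G : SimpleGraph V) (v x : V) :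
    x ∈ ball G v 0 ↔ x = v := by
  constructor
  · rintro ⟨p, hp⟩
    have : p.length = 0 := by omega
    exact (SimpleGraph.Walk.eq_of_length_eq_zero this).symm
  · rintro rfl
    exact self_mem_ball G x 0

theorem mem_ball_succ {V : Type} (G : SimpleGraph V) (v x : V) (r : ℕ) :
    x ∈ ball G v (r + 1) ↔ x ∈ ball G v r ∨ ∃ y ∈ ball G v r, G.Adj y x := by
  constructor
  · rintro ⟨p, hp⟩
    generalize hq : p.reverse = q
    have hlen : q.length ≤ r + 1 := by
      rw [← hq, SimpleGraph.Walk.length_reverse]; exact hp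
    cases q with
    | nil => exact Or.inl (self_mem_ball G _ r)
    | cons h q' =>
      refine Or.inr ⟨_, ⟨q'.reverse, ?_⟩, h.symm⟩
      rw [SimpleGraph.Walk.length_reverse]
      simpa using hlen
  · rintro (h | ⟨y, ⟨p, hp⟩, h⟩)
    · exact ball_mono G v (Nat.le_succ r) h
    · refine ⟨p.concat h, ?_⟩
      rw [SimpleGraph.Walk.length_concat]
      omega

theorem mem_ball_succ_of_adj {V : Type} (G : SimpleGraph V) {v x y : V} {r : ℕ}
    (h : x ∈ ball G v r) (ha : x = y ∨ G.Adj x y) : y ∈ ball G v (r + 1) := by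
  rcases ha with rfl | ha
  · exact ball_mono G v (Nat.le_succ r) h
  · exact (mem_ball_succ G v y r).2 (Or.inr ⟨x, h, ha⟩)

section cay

variable {Γ : Type} [Group Γ] {S : Finset Γ}

theorem cay_adj (hS : ∀ s ∈ S, s⁻¹ ∈ S) (x y : Γ) :
    (cay S).Adj x y ↔ x ≠ y ∧ ∃ s ∈ S, y = s * x := by
  unfold cay
  rw [SimpleGraph.fromRel_adj]
  constructor
  · rintro ⟨h, h1 | ⟨s, hs, e⟩⟩
    · exact ⟨h, h1⟩
    · refine ⟨h, s⁻¹, hS s hs, ?_⟩
      rw [e]; group
  · rintro ⟨h, h1⟩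
    exact ⟨h, Or.inl h1⟩

/-- `s * g` is in the ball of radius `k + 1` if `g` is in the ball of radius `k` -/
theorem mul_mem_ball {s g : Γ} {k : ℕ} (hs : s ∈ S) (hg : g ∈ ball (cay S) 1 k) :
    s * g ∈ ball (cay S) 1 (k + 1) := by
  apply mem_ball_succ_of_adj _ hg
  by_cases h : g = s * g
  · exact Or.inl h
  · right
    unfold cay
    rw [SimpleGraph.fromRel_adj]
    exact ⟨h, Or.inl ⟨s, hs, rfl⟩⟩

theorem ball_succ_cases (hS : ∀ s ∈ S, s⁻¹ ∈ S) {g : Γ} {k : ℕ}
    (hg : g ∈ ball (cay S) 1 (k + 1)) :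
    g ∈ ball (cay S) 1 k ∨ ∃ s ∈ S, ∃ g' ∈ ball (cay S) 1 k, g = s * g' := by
  rcases (mem_ball_succ _ _ _ _).1 hg with h | ⟨y, hy, ha⟩
  · exact Or.inl h
  · obtain ⟨-, s, hs, e⟩ := (cay_adj hS _ _).1 ha
    exact Or.inr ⟨s, hs, y, hy, e⟩

theorem mul_mem_ball_add (hS : ∀ s ∈ S, s⁻¹ ∈ S) {g h : Γ} {k l : ℕ}
    (hg : g ∈ ball (cay S) 1 k) (hh : h ∈ ball (cay S) 1 l) :
    g * h ∈ ball (cay S) 1 (k + l) := by
  induction k generalizing g with
  | zero =>
    rw [mem_ball_zero] at hg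
    rw [hg, one_mul, Nat.zero_add]
    exact hh
  | succ k ih =>
    rcases ball_succ_cases hS hg with h1 | ⟨s, hs, g', hg', e⟩
    · exact ball_mono _ _ (by omega) (ih h1)
    · rw [e, mul_assoc]
      have := mul_mem_ball hs (ih hg')
      exact ball_mono _ _ (by omega) this

theorem inv_mem_ball (hS : ∀ s ∈ S, s⁻¹ ∈ S) {g : Γ} {k : ℕ}
    (hg : g ∈ ball (cay S) 1 k) : g⁻¹ ∈ ball (cay S) 1 k := by
  induction k generalizing g with
  | zero =>
    rw [mem_ball_zero] at hg ⊢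
    rw [hg, inv_one]
  | succ k ih =>
    rcases ball_succ_cases hS hg with h1 | ⟨s, hs, g', hg', e⟩
    · exact ball_mono _ _ (by omega) (ih h1)
    · rw [e, mul_inv_rev]
      have h1 : s⁻¹ ∈ ball (cay S) 1 1 := by
        have := mul_mem_ball (hS s hs) (self_mem_ball (cay S) (1 : Γ) 0)
        simpa using this
      exact mul_mem_ball_add hS (ih hg') h1

theorem exists_mem_ball (hS : GenSet S) (g : Γ) : ∃ k, g ∈ ball (cay S) 1 k := by
  have hg : g ∈ Subgroup.closure (S : Set Γ) := by rw [hS.2.2]; trivial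
  induction hg using Subgroup.closure_induction with
  | mem x hx =>
    refine ⟨1, ?_⟩
    have := mul_mem_ball (s := x) (by simpa using hx) (self_mem_ball (cay S) (1 : Γ) 0)
    simpa using this
  | one => exact ⟨0, self_mem_ball _ _ _⟩
  | mul x y _ _ hx hy =>
    obtain ⟨k, hk⟩ := hx
    obtain ⟨l, hl⟩ := hy
    exact ⟨k + l, mul_mem_ball_add hS.1 hk hl⟩
  | inv x _ hx =>
    obtain ⟨k, hk⟩ := hx
    exact ⟨k, inv_mem_ball hS.1 hk⟩

theorem exists_ball_subset (hS : GenSet S) (F : Finset Γ) :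
    ∃ k, ∀ g ∈ F, g ∈ ball (cay S) 1 k := by
  choose k hk using exists_mem_ball hS
  refine ⟨F.sup k, fun g hg => ?_⟩
  exact ball_mono _ _ (Finset.le_sup hg) (hk g)

end cay

end Pool.Agent.Helper536_UC
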