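import Mathlib

/-!
# Unlabelled Cayley graphs and soficity: definitions (problem MP_1644eb_al)
-/

set_option autoImplicit false

open Filter Topology
open scoped Classical

namespace Pool.Agent.Helper536_UC

noncomputable section

/-- The unlabelled Cayley graph: `x` and `s * x` are adjacent for `s ∈ S` (if `x ≠ s * x`). -/
def cay {Γ : Type} [Group Γ] (S : Finset Γ) : SimpleGraph Γ :=
  SimpleGraph.fromRel (fun x y => ∃ s ∈ S, y = s * x)

/-- The ball: the vertices which can be reached from `v` by a walk of length at most `r`. -/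
def ball {V : Type} (G : SimpleGraph V) (v : V) (r : ℕ) : Set V :=
  {x | ∃ p : G.Walk v x, p.length ≤ r}

/-- The balls of radius `r` about `v` in `G` and about `w` in `H` (induced subgraphs) are
isomorphic as rooted graphs. -/
def SameBall {V W : Type} (G : SimpleGraph V) (v : V) (H : SimpleGraph W) (w : W) (r : ℕ) : Prop :=
  ∃ φ : G.induce (ball G v r) ≃g H.induce (ball H w r), ∀ h : v ∈ ball G v r, (φ ⟨v, h⟩).1 = w

/-- `δ_[H,o]` is the weak limit of the laws of a sequence of finite simple graphs: for every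
radius `r` the proportion of the vertices of the `k`-th graph whose `r`-ball is isomorphic to
the one of `(H, o)` tends to `1`. -/
def LocalLimit {W : Type} (H : SimpleGraph W) (o : W) : Prop :=
  ∃ (V : ℕ → Type) (_ : ∀ k, Fintype (V k)) (_ : ∀ k, Nonempty (V k))
    (G : ∀ k, SimpleGraph (V k)), ∀ r : ℕ,
    Tendsto (fun k => ((Finset.univ.filter fun v => SameBall (G k) v H o r).card : ℝ) /
      (Fintype.card (V k) : ℝ)) atTop (𝓝 1)

/-- The underlying undirected graph of a directed graph on `V` with edges labelled by `S`: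
`E s v w` means that there is an edge from `v` to `w` with the label `s`. -/
def und {Γ V : Type} (S : Finset Γ) (E : Γ → V → V → Prop) : SimpleGraph V :=
  SimpleGraph.fromRel (fun v w => ∃ s ∈ S, E s v w)

/-- The `r`-ball of the labelled directed graph `E` about `v` is isomorphic to the `r`-ball of
the labelled directed Cayley graph of `(Γ, S)` about `1` (edges `x → s * x` with label `s`),
by an isomorphism preserving roots, edge directions and labels. -/
def LabelledBall {Γ V : Type} [Group Γ] (S : Finset Γ) (E : Γ → V → V → Prop) (v : V)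
    (r : ℕ) : Prop :=
  ∃ φ : ball (cay S) (1 : Γ) r ≃ ball (und S E) v r,
    (∀ h : (1 : Γ) ∈ ball (cay S) (1 : Γ) r, (φ ⟨1, h⟩).1 = v) ∧
    ∀ s ∈ S, ∀ x y, (y.1 = s * x.1 ↔ E s (φ x).1 (φ y).1)

/-- Finite symmetric generating set which does not contain `1`. -/
def GenSet {Γ : Type} [Group Γ] (S : Finset Γ) : Prop :=
  (∀ s ∈ S, s⁻¹ ∈ S) ∧ (1 : Γ) ∉ S ∧ Subgroup.closure (S : Set Γ) = ⊤

/-- Soficity of a finitely generated group, as defined in the problem file. -/
def Sofic (Γ : Type) [Group Γ] : Prop :=
  ∃ S : Finset Γ, GenSet S ∧ ∀ ε : ℝ, 0 < ε → ∀ r : ℕ,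
    ∃ (V : Type) (_ : Fintype V) (_ : Nonempty V) (E : Γ → V → V → Prop) (V₀ : Finset V),
      (1 - ε) * (Fintype.card V : ℝ) ≤ (V₀.card : ℝ) ∧ ∀ v ∈ V₀, LabelledBall S E v r

end

end Pool.Agent.Helper536_UC
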