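import Pool.Agent.Helper536_UC.Basic
import Pool.Agent.helper987_SE.Defs

/-!
# Labelled graph approximations give permutation approximations
-/

set_option autoImplicit false
set_option maxHeartbeats 1000000

open Filter Topology
open scoped Classical

namespace Pool.Agent.Helper536_UC

open Pool.Agent.helper987_SE

noncomputable section

/-- the data of a labelled ball as a function on the group -/
structure LB {Γ V : Type} [Group Γ] (S : Finset Γ) (E : Γ → V → V → Prop) (v : V) (r : ℕ)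
    (f : Γ → V) : Prop where
  one : f 1 = v
  mem : ∀ g ∈ ball (cay S) (1 : Γ) r, f g ∈ ball (und S E) v r
  inj : ∀ g ∈ ball (cay S) (1 : Γ) r, ∀ h ∈ ball (cay S) (1 : Γ) r, f g = f h → g = h
  surj : ∀ y ∈ ball (und S E) v r, ∃ g ∈ ball (cay S) (1 : Γ) r, f g = y
  edge : ∀ s ∈ S, ∀ g ∈ ball (cay S) (1 : Γ) r, ∀ h ∈ ball (cay S) (1 : Γ) r,
    (h = s * g ↔ E s (f g) (f h))

theorem LabelledBall.exists_LB {Γ V : Type} [Group Γ] {S : Finset Γ} {E : Γ → V → V → Prop}
    {v : V} {r : ℕ} (h : LabelledBall S E v r) : ∃ f, LB S E v r f := by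
  obtain ⟨φ, h1, h2⟩ := h
  refine ⟨fun g => if hg : g ∈ ball (cay S) (1 : Γ) r then (φ ⟨g, hg⟩).1 else v, ?_, ?_, ?_, ?_, ?_⟩
  · rw [dif_pos (self_mem_ball _ _ _)]
    exact h1 _
  · intro g hg
    rw [dif_pos hg]
    exact (φ ⟨g, hg⟩).2
  · intro g hg h hh e
    rw [dif_pos hg, dif_pos hh] at e
    have := φ.injective (Subtype.ext e)
    exact congrArg Subtype.val this
  · intro y hy
    refine ⟨(φ.symm ⟨y, hy⟩).1, (φ.symm ⟨y, hy⟩).2, ?_⟩
    rw [dif_pos (φ.symm ⟨y, hy⟩).2]
    show (φ (φ.symm ⟨y, hy⟩)).1 = y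
    rw [Equiv.apply_symm_apply]
  · intro s hs g hg h hh
    rw [dif_pos hg, dif_pos hh]
    exact h2 s hs ⟨g, hg⟩ ⟨h, hh⟩

section

variable {Γ V : Type} [Group Γ] {S : Finset Γ} {E : Γ → V → V → Prop}

omit [Group Γ] in
theorem und_or {s : Γ} (hs : s ∈ S) {x y : V} (h : E s x y) : x = y ∨ (und S E).Adj x y := by
  by_cases e : x = y
  · exact Or.inl e
  · right
    unfold und
    rw [SimpleGraph.fromRel_adj]
    exact ⟨e, Or.inl ⟨s, hs, h⟩⟩

theorem LB.mem' (hS : ∀ s ∈ S, s⁻¹ ∈ S) {v : V} {r : ℕ} {f : Γ → V} (L : LB S E v r f)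
    {k : ℕ} (hk : k ≤ r) {g : Γ} (hg : g ∈ ball (cay S) 1 k) : f g ∈ ball (und S E) v k := by
  induction k generalizing g with
  | zero =>
    rw [mem_ball_zero] at hg ⊢
    rw [hg, L.one]
  | succ k ih =>
    rcases ball_succ_cases hS hg with h1 | ⟨s, hs, g', hg', e⟩
    · exact ball_mono _ _ (by omega) (ih (by omega) h1)
    · have h2 := ih (by omega) hg'
      have h3 := (L.edge s hs g' (ball_mono _ _ (by omega) hg') g
        (ball_mono _ _ hk hg)).1 e
      exact mem_ball_succ_of_adj _ h2 (und_or hs h3)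

/-- in-edges -/
theorem LB.inEdge (hS : ∀ s ∈ S, s⁻¹ ∈ S) {v : V} {r : ℕ} {f : Γ → V} (L : LB S E v r f)
    {k : ℕ} (hk : k + 1 ≤ r) {g : Γ} (hg : g ∈ ball (cay S) 1 k) {s : Γ} (hs : s ∈ S) {y : V}
    (h : E s y (f g)) : y = f (s⁻¹ * g) := by
  have h1 := L.mem' hS (by omega : k ≤ r) hg
  have h2 : y ∈ ball (und S E) v r := by
    refine ball_mono _ _ hk (mem_ball_succ_of_adj _ h1 ?_)
    rcases und_or hs h with e | e
    · exact Or.inl e.symm
    · exact Or.inr e.symm
  obtain ⟨g', hg', rfl⟩ := L.surj y h2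
  have h3 := (L.edge s hs g' hg' g (ball_mono _ _ (by omega) hg)).2 h
  rw [h3, inv_mul_cancel_left]

/-- out-edges -/
theorem LB.outEdge (hS : ∀ s ∈ S, s⁻¹ ∈ S) {v : V} {r : ℕ} {f : Γ → V} (L : LB S E v r f)
    {k : ℕ} (hk : k + 1 ≤ r) {g : Γ} (hg : g ∈ ball (cay S) 1 k) {s : Γ} (hs : s ∈ S) {y : V}
    (h : E s (f g) y) : y = f (s * g) := by
  have h1 := L.mem' hS (by omega : k ≤ r) hg
  have h2 : y ∈ ball (und S E) v r :=
    ball_mono _ _ hk (mem_ball_succ_of_adj _ h1 (und_or hs h))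
  obtain ⟨g', hg', rfl⟩ := L.surj y h2
  have h3 := (L.edge s hs g (ball_mono _ _ (by omega) hg) g' hg').2 h
  rw [h3]

/-- multiplicativity -/
theorem LB.mul (hS : ∀ s ∈ S, s⁻¹ ∈ S) {v w : V} {r : ℕ} {f f' : Γ → V} (L : LB S E v r f)
    (L' : LB S E w r f') {k l : ℕ} (hkl : k + l ≤ r) {h : Γ} (hh : h ∈ ball (cay S) 1 k)
    (hw : f h = w) {g : Γ} (hg : g ∈ ball (cay S) 1 l) : f' g = f (g * h) := by
  induction l generalizing g with
  | zero =>
    rw [mem_ball_zero] at hg
    rw [hg, L'.one, one_mul, hw]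
  | succ l ih =>
    rcases ball_succ_cases hS hg with h1 | ⟨s, hs, g', hg', e⟩
    · exact ih (by omega) h1
    · have h2 := ih (by omega) hg'
      have h3 := (L'.edge s hs g' (ball_mono _ _ (by omega) hg') g
        (ball_mono _ _ (by omega) hg)).1 e
      rw [h2] at h3
      have h4 : g' * h ∈ ball (cay S) 1 (l + k) := mul_mem_ball_add hS hg' hh
      have h5 := L.outEdge hS (by omega) h4 hs h3
      rw [h5, e, mul_assoc]

/-- injectivity in the root -/
theorem LB.root_inj (hS : ∀ s ∈ S, s⁻¹ ∈ S) {v w : V} {r : ℕ} {f f' : Γ → V}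
    (L : LB S E v r f) (L' : LB S E w r f') {k : ℕ} (hk : k + 1 ≤ r) {g : Γ}
    (hg : g ∈ ball (cay S) 1 k) (h : f g = f' g) : v = w := by
  induction k generalizing g with
  | zero =>
    rw [mem_ball_zero] at hg
    rw [hg, L.one, L'.one] at h
    exact h
  | succ k ih =>
    rcases ball_succ_cases hS hg with h1 | ⟨s, hs, g', hg', e⟩
    · exact ih (by omega) h1 h
    · have h3 := (L'.edge s hs g' (ball_mono _ _ (by omega) hg') g
        (ball_mono _ _ (by omega) hg)).1 e
      rw [← h] at h3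
      have h4 := L.inEdge hS (by omega) hg hs h3
      refine ih (by omega) hg' ?_
      rw [h4, e, inv_mul_cancel_left]

end

theorem exists_perm {V : Type} [Fintype V] (s : Finset V) (f : V → V)
    (hf : Set.InjOn f s) : ∃ p : Equiv.Perm V, ∀ i ∈ s, p i = f i := by
  obtain ⟨g, hg⟩ := Finset.exists_equiv_extend_of_card_eq (α := V) (β := V)
    (t := Finset.univ) (by rw [Finset.card_univ]) (Finset.subset_univ _) hf
  refine ⟨g.trans (Equiv.subtypeUnivEquiv (by simp)), fun i hi => ?_⟩
  simpa using hg i hi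

theorem sof_of_sofic (Γ : Type) [Group Γ] (h : Sofic Γ) : Sof Γ := by
  obtain ⟨S, hG, H⟩ := h
  have hS := hG.1
  intro F ε hε
  obtain ⟨k, hk⟩ := exists_ball_subset hG (F ∪ (F ×ˢ F).image (fun q => q.1 * q.2))
  obtain ⟨V, iV, nV, E, V₀, hV₀, HB⟩ := H (ε / 3) (by positivity) (2 * k + 1)
  have hf : ∀ v : V, ∃ f : Γ → V, v ∈ V₀ → LB S E v (2 * k + 1) f := by
    intro v
    by_cases hv : v ∈ V₀
    · obtain ⟨f, hf⟩ := (HB v hv).exists_LB
      exact ⟨f, fun _ => hf⟩
    · exact ⟨fun _ => v, fun h => absurd h hv⟩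
  choose f hf using hf
  have hp : ∀ g : Γ, ∃ p : Equiv.Perm V, g ∈ ball (cay S) 1 k → ∀ v ∈ V₀, p v = f v g := by
    intro g
    by_cases hg : g ∈ ball (cay S) 1 k
    · obtain ⟨p, hp⟩ := exists_perm V₀ (fun v => f v g) (by
        intro v hv w hw e
        exact LB.root_inj hS (hf v hv) (hf w hw) (by omega) hg e)
      exact ⟨p, fun _ => hp⟩
    · exact ⟨1, fun h => absurd h hg⟩
  choose p hp using hp
  have hcard : (0 : ℝ) < Fintype.card V := by exact_mod_cast Fintype.card_pos
  let e : V ≃ Fin (Fintype.card V) := Fintype.equivFin V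
  have hc : ((V₀ᶜ).card : ℝ) ≤ ε / 3 * Fintype.card V := by
    have h1 : V₀.card + (V₀ᶜ).card = Fintype.card V := Finset.card_add_card_compl V₀
    have h2 : (V₀.card : ℝ) + ((V₀ᶜ).card : ℝ) = Fintype.card V := by exact_mod_cast h1
    nlinarith
  refine ⟨Fintype.card V, fun g => e.permCongr (p g), ?_, ?_⟩
  · intro g hg h hh
    have hgk := hk g (by simp [hg])
    have hhk := hk h (by simp [hh])
    have hghk := hk (g * h) (by
      rw [Finset.mem_union]; right
      rw [Finset.mem_image]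
      exact ⟨(g, h), by simp [hg, hh], rfl⟩)
    have h3 : ((Finset.univ.filter (fun i => (e.permCongr (p (g * h))) i ≠
        (e.permCongr (p g) * e.permCongr (p h)) i)).card : ℝ) ≤
        ((V₀ᶜ).card : ℝ) + ((V₀ᶜ).card : ℝ) := by
      have h2 : (Finset.univ.filter (fun i => (e.permCongr (p (g * h))) i ≠
        (e.permCongr (p g) * e.permCongr (p h)) i)).card ≤
          (V₀ᶜ ∪ (V₀ᶜ).image (p h).symm).card := by
        apply Finset.card_le_card_of_injOn e.symm
        · intro i hi
          have hi' := (Finset.mem_filter.1 hi).2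
          rw [Equiv.Perm.mul_apply, Equiv.permCongr_apply, Equiv.permCongr_apply,
            Equiv.permCongr_apply, Equiv.symm_apply_apply] at hi'
          rw [Finset.mem_coe, Finset.mem_union, Finset.mem_compl, Finset.mem_image]
          by_contra hcon
          push Not at hcon
          obtain ⟨hc1, hc2⟩ := hcon
          have hw : p h (e.symm i) ∈ V₀ := by
            by_contra hw
            exact hc2 (p h (e.symm i)) (Finset.mem_compl.2 hw) (by simp)
          apply hi'
          rw [hp (g * h) hghk _ hc1, hp g hgk _ hw]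
          have e1 := hp h hhk _ hc1
          rw [LB.mul hS (hf _ hc1) (hf _ hw) (by omega) hhk e1.symm hgk]
        · exact e.symm.injective.injOn
      have := h2.trans (Finset.card_union_le _ _)
      have h4 := Finset.card_image_le (s := V₀ᶜ) (f := (p h).symm)
      exact_mod_cast this.trans (Nat.add_le_add_left h4 _)
    refine lt_of_le_of_lt h3 ?_
    nlinarith
  · intro g hg hg1
    have hgk := hk g (by simp [hg])
    have h2 : V₀.card ≤ (Finset.univ.filter (fun i => (e.permCongr (p g)) i ≠ i)).card := by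
      apply Finset.card_le_card_of_injOn e
      · intro v hv
        have hv' : v ∈ V₀ := hv
        rw [Finset.mem_coe, Finset.mem_filter]
        refine ⟨Finset.mem_univ _, ?_⟩
        rw [Equiv.permCongr_apply, Equiv.symm_apply_apply, hp g hgk v hv']
        intro he
        apply hg1
        refine (hf v hv').inj g (ball_mono _ _ (by omega) hgk) 1 (self_mem_ball _ _ _) ?_
        rw [e.injective he, (hf v hv').one]
      · exact e.injective.injOn
    have h3 : (V₀.card : ℝ) ≤
        ((Finset.univ.filter (fun i => (e.permCongr (p g)) i ≠ i)).card : ℝ) := by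
      exact_mod_cast h2
    refine le_trans ?_ h3
    nlinarith

end

end Pool.Agent.Helper536_UC
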