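import Pool.Agent.Helper536_UC.Basic
import Pool.Agent.helper987_SE.Defs

/-!
# Local limits from a sofic quotient by a finite normal subgroup
-/

set_option autoImplicit false
set_option maxHeartbeats 1000000

open Filter Topology
open scoped Classical

namespace Pool.Agent.Helper536_UC

open Pool.Agent.helper987_SE

noncomputable section

theorem sof_good {Q : Type} [Group Q] (hQ : Sof Q) (F : Finset Q) (h1F : (1 : Q) ∈ F)
    {δ : ℝ} (hδ : 0 < δ) :
    ∃ (n : ℕ) (φ : Q → Equiv.Perm (Fin n)) (V₀ : Finset (Fin n)), 0 < n ∧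
      (1 - δ) * (n : ℝ) ≤ (V₀.card : ℝ) ∧ ∀ x ∈ V₀,
        (∀ g ∈ F, ∀ h ∈ F, φ (g * h) x = φ g (φ h x)) ∧ (∀ g ∈ F, g ≠ 1 → φ g x ≠ x) := by
  set M : ℝ := (F.card : ℝ) * F.card + F.card with hM
  have hM0 : 0 ≤ M := by positivity
  set ε : ℝ := δ / (M + 1) with hε
  have hε0 : 0 < ε := by positivity
  obtain ⟨n, φ, h1, h2⟩ := hQ F ε hε0
  have hn : 0 < n := by
    rcases Nat.eq_zero_or_pos n with h | h
    · exfalso
      have := h1 1 h1F 1 h1F
      subst h
      simp at this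
    · exact h
  let B1 : Finset (Fin n) := (F ×ˢ F).biUnion fun q =>
    Finset.univ.filter fun i => φ (q.1 * q.2) i ≠ (φ q.1 * φ q.2) i
  let B2 : Finset (Fin n) := (F.filter fun g => g ≠ 1).biUnion fun g =>
    Finset.univ.filter fun i => ¬ φ g i ≠ i
  have hB1 : (B1.card : ℝ) ≤ (F.card : ℝ) * F.card * (ε * n) := by
    have h3 : (B1.card : ℝ) ≤ ∑ q ∈ F ×ˢ F,
        ((Finset.univ.filter fun i => φ (q.1 * q.2) i ≠ (φ q.1 * φ q.2) i).card : ℝ) := by
      exact_mod_cast Finset.card_biUnion_le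
    refine h3.trans ?_
    have h4 : ∀ q ∈ F ×ˢ F,
        ((Finset.univ.filter fun i => φ (q.1 * q.2) i ≠ (φ q.1 * φ q.2) i).card : ℝ) ≤ ε * n := by
      intro q hq
      rw [Finset.mem_product] at hq
      exact (h1 q.1 hq.1 q.2 hq.2).le
    refine (Finset.sum_le_card_nsmul _ _ _ h4).trans ?_
    rw [Finset.card_product, nsmul_eq_mul]
    push_cast
    exact le_refl _
  have hB2 : (B2.card : ℝ) ≤ (F.card : ℝ) * (ε * n) := by
    have h3 : (B2.card : ℝ) ≤ ∑ g ∈ F.filter fun g => g ≠ 1,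
        ((Finset.univ.filter fun i => ¬ φ g i ≠ i).card : ℝ) := by
      exact_mod_cast Finset.card_biUnion_le
    refine h3.trans ?_
    have h4 : ∀ g ∈ F.filter (fun g => g ≠ 1),
        ((Finset.univ.filter fun i => ¬ φ g i ≠ i).card : ℝ) ≤ ε * n := by
      intro g hg
      rw [Finset.mem_filter] at hg
      have h5 := h2 g hg.1 hg.2
      have h6 := Finset.card_filter_add_card_filter_not (s := (Finset.univ : Finset (Fin n)))
        (fun i => φ g i ≠ i)
      rw [Finset.card_univ, Fintype.card_fin] at h6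
      have h7 : ((Finset.univ.filter fun i => φ g i ≠ i).card : ℝ) +
          ((Finset.univ.filter fun i => ¬ φ g i ≠ i).card : ℝ) = n := by exact_mod_cast h6
      nlinarith
    refine (Finset.sum_le_card_nsmul _ _ _ h4).trans ?_
    rw [nsmul_eq_mul]
    have h8 : ((F.filter fun g => g ≠ 1).card : ℝ) ≤ F.card := by
      exact_mod_cast Finset.card_filter_le _ _
    exact mul_le_mul_of_nonneg_right h8 (by positivity)
  refine ⟨n, φ, (B1 ∪ B2)ᶜ, hn, ?_, ?_⟩
  · have h3 : (B1 ∪ B2).card + ((B1 ∪ B2)ᶜ).card = n := by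
      rw [Finset.card_add_card_compl, Fintype.card_fin]
    have h4 : ((B1 ∪ B2).card : ℝ) + (((B1 ∪ B2)ᶜ).card : ℝ) = n := by exact_mod_cast h3
    have h5 : ((B1 ∪ B2).card : ℝ) ≤ (B1.card : ℝ) + B2.card := by
      exact_mod_cast Finset.card_union_le _ _
    have h6 : M * (ε * n) ≤ δ * n := by
      have : M * ε ≤ δ := by
        rw [hε, mul_div_assoc', div_le_iff₀ (by positivity)]
        nlinarith
      have hn' : (0 : ℝ) ≤ n := by positivity
      nlinarith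
    have h7 : (F.card : ℝ) * F.card * (ε * n) + (F.card : ℝ) * (ε * n) = M * (ε * n) := by
      rw [hM]; ring
    linarith
  · intro x hx
    rw [Finset.mem_compl, Finset.mem_union, not_or] at hx
    refine ⟨fun g hg h hh => ?_, fun g hg hg1 he => ?_⟩
    · by_contra hcon
      apply hx.1
      rw [Finset.mem_biUnion]
      refine ⟨(g, h), by simp [hg, hh], ?_⟩
      rw [Finset.mem_filter]
      exact ⟨Finset.mem_univ _, hcon⟩
    · apply hx.2
      rw [Finset.mem_biUnion]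
      refine ⟨g, by rw [Finset.mem_filter]; exact ⟨hg, hg1⟩, ?_⟩
      rw [Finset.mem_filter]
      exact ⟨Finset.mem_univ _, not_not.2 he⟩

theorem sameBall_of_map {V W : Type} {G : SimpleGraph V} {v : V} {H : SimpleGraph W} {w : W}
    {r : ℕ} (f : W → V) (h1 : f w = v) (h2 : ∀ x ∈ ball H w r, f x ∈ ball G v r)
    (h3 : ∀ x ∈ ball H w r, ∀ y ∈ ball H w r, f x = f y → x = y)
    (h4 : ∀ y ∈ ball G v r, ∃ x ∈ ball H w r, f x = y)
    (h5 : ∀ x ∈ ball H w r, ∀ y ∈ ball H w r, G.Adj (f x) (f y) ↔ H.Adj x y) :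
    SameBall G v H w r := by
  let e : ball H w r ≃ ball G v r := Equiv.ofBijective
    (fun x => ⟨f x.1, h2 x.1 x.2⟩) (by
      constructor
      · intro x y hxy
        exact Subtype.ext (h3 x.1 x.2 y.1 y.2 (congrArg Subtype.val hxy))
      · rintro ⟨y, hy⟩
        obtain ⟨x, hx, rfl⟩ := h4 y hy
        exact ⟨⟨x, hx⟩, rfl⟩)
  have he : ∀ x, (e x).1 = f x.1 := fun x => rfl
  let E : H.induce (ball H w r) ≃g G.induce (ball G v r) :=
    { e with
      map_rel_iff' := by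
        intro x y
        show G.Adj (f x.1) (f y.1) ↔ H.Adj x.1 y.1
        exact h5 x.1 x.2 y.1 y.2 }
  refine ⟨E.symm, fun h => ?_⟩
  have h6 : E ⟨w, self_mem_ball H w r⟩ = ⟨v, h⟩ := Subtype.ext h1
  rw [← h6, RelIso.symm_apply_apply]

section

variable {Γ : Type} [Group Γ] {N : Subgroup Γ} [N.Normal]

/-- the cocycle-like second coordinate -/
def cc (N : Subgroup Γ) (g : Γ) : N :=
  ⟨(Quotient.out (QuotientGroup.mk g : Γ ⧸ N))⁻¹ * g,
    QuotientGroup.eq.1 (Quotient.out_eq _)⟩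

omit [N.Normal] in
theorem cc_inj {g h : Γ} (h1 : (QuotientGroup.mk g : Γ ⧸ N) = QuotientGroup.mk h)
    (h2 : cc N g = cc N h) : g = h := by
  have := congrArg Subtype.val h2
  simp only [cc] at this
  rw [h1] at this
  exact mul_left_cancel this

omit [N.Normal] in
theorem cc_surj (q : Γ ⧸ N) (a : N) :
    ∃ g : Γ, (QuotientGroup.mk g : Γ ⧸ N) = q ∧ cc N g = a := by
  have h1 : (QuotientGroup.mk (Quotient.out q * (a : Γ)) : Γ ⧸ N) = q := by
    rw [QuotientGroup.mk_mul_of_mem _ a.2]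
    exact Quotient.out_eq q
  refine ⟨Quotient.out q * (a : Γ), h1, ?_⟩
  apply Subtype.ext
  simp only [cc]
  rw [h1, inv_mul_cancel_left]

/-- the balls in the quotient -/
def BB (Sb : Finset (Γ ⧸ N)) : ℕ → Finset (Γ ⧸ N)
  | 0 => {1}
  | k + 1 => BB Sb k ∪ (Sb ×ˢ BB Sb k).image fun q => q.1 * q.2

theorem BB_mono (Sb : Finset (Γ ⧸ N)) (k : ℕ) : BB Sb k ⊆ BB Sb (k + 1) :=
  Finset.subset_union_left

theorem mul_mem_BB {Sb : Finset (Γ ⧸ N)} {k : ℕ} {s q : Γ ⧸ N} (hs : s ∈ Sb)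
    (hq : q ∈ BB Sb k) : s * q ∈ BB Sb (k + 1) := by
  show s * q ∈ BB Sb k ∪ (Sb ×ˢ BB Sb k).image fun q => q.1 * q.2
  rw [Finset.mem_union]
  right
  rw [Finset.mem_image]
  exact ⟨(s, q), by simp [hs, hq], rfl⟩

theorem BB_mono' (Sb : Finset (Γ ⧸ N)) {k l : ℕ} (h : k ≤ l) : BB Sb k ⊆ BB Sb l := by
  induction h with
  | refl => exact Finset.Subset.refl _
  | step _ ih => exact ih.trans (BB_mono Sb _)

theorem mk_mem_BB {Sb : Finset (Γ ⧸ N)} {S : Finset Γ}
    (hS : ∀ g, g ∈ S ↔ g ≠ 1 ∧ ((QuotientGroup.mk g : Γ ⧸ N) = 1 ∨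
      (QuotientGroup.mk g : Γ ⧸ N) ∈ Sb)) (hS' : ∀ s ∈ S, s⁻¹ ∈ S) {k : ℕ} {g : Γ}
    (hg : g ∈ ball (cay S) 1 k) : (QuotientGroup.mk g : Γ ⧸ N) ∈ BB Sb k := by
  induction k generalizing g with
  | zero =>
    rw [mem_ball_zero] at hg
    rw [hg]
    show (QuotientGroup.mk 1 : Γ ⧸ N) ∈ ({1} : Finset (Γ ⧸ N))
    rw [Finset.mem_singleton]
    rfl
  | succ k ih =>
    rcases ball_succ_cases hS' hg with h1 | ⟨s, hs, g', hg', e⟩
    · exact BB_mono Sb k (ih h1)
    · rw [e, QuotientGroup.mk_mul]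
      rcases ((hS s).1 hs).2 with h2 | h2
      · rw [h2, one_mul]
        exact BB_mono Sb k (ih hg')
      · exact mul_mem_BB h2 (ih hg')

/-- the finite graph -/
def GG (N : Subgroup Γ) {n : ℕ} (Sb : Finset (Γ ⧸ N)) (φ : Γ ⧸ N → Equiv.Perm (Fin n)) :
    SimpleGraph (Fin n × N) :=
  SimpleGraph.fromRel fun p q => p.1 = q.1 ∨ ∃ s ∈ Sb, q.1 = φ s p.1

theorem cay_adj' {Sb : Finset (Γ ⧸ N)} {S : Finset Γ}
    (hS : ∀ g, g ∈ S ↔ g ≠ 1 ∧ ((QuotientGroup.mk g : Γ ⧸ N) = 1 ∨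
      (QuotientGroup.mk g : Γ ⧸ N) ∈ Sb)) (hS' : ∀ s ∈ S, s⁻¹ ∈ S) (x y : Γ) :
    (cay S).Adj x y ↔ x ≠ y ∧ ((QuotientGroup.mk y : Γ ⧸ N) = QuotientGroup.mk x ∨
      ∃ s ∈ Sb, (QuotientGroup.mk y : Γ ⧸ N) = s * QuotientGroup.mk x) := by
  rw [cay_adj hS']
  constructor
  · rintro ⟨h, s, hs, e⟩
    refine ⟨h, ?_⟩
    rw [e, QuotientGroup.mk_mul]
    rcases ((hS s).1 hs).2 with h2 | h2
    · left; rw [h2, one_mul]
    · right; exact ⟨_, h2, rfl⟩
  · rintro ⟨h, h1⟩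
    refine ⟨h, y * x⁻¹, ?_, by group⟩
    rw [hS]
    refine ⟨fun e => h (mul_inv_eq_one.1 e).symm, ?_⟩
    rw [QuotientGroup.mk_mul, QuotientGroup.mk_inv]
    rcases h1 with h1 | ⟨s, hs, h1⟩
    · left; rw [h1, mul_inv_cancel]
    · right; rw [h1, mul_inv_cancel_right]; exact hs

theorem good_point {Sb : Finset (Γ ⧸ N)} {S : Finset Γ}
    (hS : ∀ g, g ∈ S ↔ g ≠ 1 ∧ ((QuotientGroup.mk g : Γ ⧸ N) = 1 ∨
      (QuotientGroup.mk g : Γ ⧸ N) ∈ Sb)) (hS' : ∀ s ∈ S, s⁻¹ ∈ S)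
    (hSb : ∀ s ∈ Sb, s⁻¹ ∈ Sb) {n : ℕ}
    (φ : Γ ⧸ N → Equiv.Perm (Fin n)) (k : ℕ) (F : Finset (Γ ⧸ N)) (h1F : 1 ∈ F)
    (hF1 : BB Sb (k + 1) ⊆ F) (hF2 : Sb ⊆ F)
    (hF4 : ∀ q ∈ BB Sb (k + 1), ∀ q' ∈ BB Sb (k + 1), q⁻¹ * q' ∈ F) (x : Fin n)
    (hx1 : ∀ g ∈ F, ∀ h ∈ F, φ (g * h) x = φ g (φ h x)) (hx2 : ∀ g ∈ F, g ≠ 1 → φ g x ≠ x)
    (a : N) (r : ℕ) (hr : r ≤ k) : SameBall (GG N Sb φ) (x, a) (cay S) 1 r := by
  have hφ1 : φ 1 x = x := by
    have := hx1 1 h1F 1 h1F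
    rw [mul_one] at this
    exact ((φ 1).injective this).symm
  have hinj : ∀ q ∈ BB Sb (k + 1), ∀ q' ∈ BB Sb (k + 1), φ q x = φ q' x → q = q' := by
    intro q hq q' hq' e
    have h1 := hx1 q (hF1 hq) (q⁻¹ * q') (hF4 q hq q' hq')
    rw [mul_inv_cancel_left, ← e] at h1
    have h2 := (φ q).injective h1
    by_contra hne
    exact hx2 (q⁻¹ * q') (hF4 q hq q' hq') (fun h => hne (inv_mul_eq_one.1 h)) h2.symm
  have hmul : ∀ s ∈ Sb, ∀ q ∈ BB Sb k, φ s (φ q x) = φ (s * q) x := by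
    intro s hs q hq
    exact (hx1 s (hF2 hs) q (hF1 (BB_mono Sb k hq))).symm
  have hmul' : ∀ s ∈ Sb, ∀ q ∈ BB Sb k, ∀ y, φ q x = φ s y → y = φ (s⁻¹ * q) x := by
    intro s hs q hq y e
    have h1 := hx1 s (hF2 hs) (s⁻¹ * q) (hF1 (mul_mem_BB (hSb s hs) hq))
    rw [mul_inv_cancel_left, e] at h1
    exact (φ s).injective h1
  let f : Γ → Fin n × N := fun g => (φ (QuotientGroup.mk g) x, cc N g * (cc N 1)⁻¹ * a)
  have hf1 : f 1 = (x, a) := by
    show (φ (QuotientGroup.mk 1) x, cc N 1 * (cc N 1)⁻¹ * a) = (x, a)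
    rw [mul_inv_cancel, one_mul]
    have : (QuotientGroup.mk (1 : Γ) : Γ ⧸ N) = 1 := rfl
    rw [this, hφ1]
  have hBk : ∀ g ∈ ball (cay S) 1 k, (QuotientGroup.mk g : Γ ⧸ N) ∈ BB Sb k :=
    fun g hg => mk_mem_BB hS hS' hg
  have hfinj : ∀ g ∈ ball (cay S) 1 k, ∀ h ∈ ball (cay S) 1 k, f g = f h → g = h := by
    intro g hg h hh e
    have e1 : φ (QuotientGroup.mk g) x = φ (QuotientGroup.mk h) x := congrArg Prod.fst e
    have e2 : cc N g * (cc N 1)⁻¹ * a = cc N h * (cc N 1)⁻¹ * a := congrArg Prod.snd e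
    exact cc_inj (hinj _ (BB_mono Sb k (hBk g hg)) _ (BB_mono Sb k (hBk h hh)) e1)
      (mul_right_cancel (mul_right_cancel e2))
  have hadj : ∀ g ∈ ball (cay S) 1 k, ∀ h ∈ ball (cay S) 1 k,
      ((GG N Sb φ).Adj (f g) (f h) ↔ (cay S).Adj g h) := by
    intro g hg h hh
    rw [cay_adj' hS hS']
    unfold GG
    rw [SimpleGraph.fromRel_adj]
    have hne : f g ≠ f h ↔ g ≠ h :=
      ⟨fun h1 h2 => h1 (by rw [h2]), fun h1 h2 => h1 (hfinj g hg h hh h2)⟩
    rw [hne]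
    refine and_congr_right fun _ => ?_
    have hqg := hBk g hg
    have hqh := hBk h hh
    constructor
    · rintro ((h1 | ⟨s, hs, h1⟩) | (h1 | ⟨s, hs, h1⟩))
      · left
        exact (hinj _ (BB_mono Sb k hqg) _ (BB_mono Sb k hqh) h1).symm
      · right
        refine ⟨s, hs, ?_⟩
        have h2 : φ (QuotientGroup.mk h) x = φ s (φ (QuotientGroup.mk g) x) := h1
        rw [hmul s hs _ hqg] at h2
        exact hinj _ (BB_mono Sb k hqh) _ (mul_mem_BB hs hqg) h2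
      · left
        exact hinj _ (BB_mono Sb k hqh) _ (BB_mono Sb k hqg) h1
      · right
        refine ⟨s⁻¹, hSb s hs, ?_⟩
        have h2 : φ (QuotientGroup.mk g) x = φ s (φ (QuotientGroup.mk h) x) := h1
        rw [hmul s hs _ hqh] at h2
        have h3 := hinj _ (BB_mono Sb k hqg) _ (mul_mem_BB hs hqh) h2
        rw [h3, inv_mul_cancel_left]
    · rintro (h1 | ⟨s, hs, h1⟩)
      · left; left
        show φ (QuotientGroup.mk g) x = φ (QuotientGroup.mk h) x
        rw [h1]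
      · left; right
        refine ⟨s, hs, ?_⟩
        show φ (QuotientGroup.mk h) x = φ s (φ (QuotientGroup.mk g) x)
        rw [h1, hmul s hs _ hqg]
  have hmap : ∀ r ≤ k, ∀ g ∈ ball (cay S) 1 r, f g ∈ ball (GG N Sb φ) (x, a) r := by
    intro r
    induction r with
    | zero =>
      intro _ g hg
      rw [mem_ball_zero] at hg ⊢
      rw [hg, hf1]
    | succ r ih =>
      intro hr g hg
      rcases (mem_ball_succ _ _ _ _).1 hg with h | ⟨y, hy, ha⟩
      · exact ball_mono _ _ (by omega) (ih (by omega) g h)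
      · refine (mem_ball_succ _ _ _ _).2 (Or.inr ⟨f y, ih (by omega) y hy, ?_⟩)
        exact (hadj y (ball_mono _ _ (by omega) hy) g (ball_mono _ _ hr hg)).2 ha
  have hsurj : ∀ r ≤ k, ∀ p ∈ ball (GG N Sb φ) (x, a) r, ∃ g ∈ ball (cay S) 1 r, f g = p := by
    intro r
    induction r with
    | zero =>
      intro _ p hp
      rw [mem_ball_zero] at hp
      exact ⟨1, self_mem_ball _ _ _, by rw [hp, hf1]⟩
    | succ r ih =>
      intro hr p hp
      rcases (mem_ball_succ _ _ _ _).1 hp with h | ⟨y, hy, ha⟩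
      · obtain ⟨g, hg, e⟩ := ih (by omega) p h
        exact ⟨g, ball_mono _ _ (by omega) hg, e⟩
      · obtain ⟨g, hg, rfl⟩ := ih (by omega) y hy
        have hqg := hBk g (ball_mono _ _ (by omega) hg)
        -- it suffices to find the class of the new element
        have hsuff : ∀ q : Γ ⧸ N, p.1 = φ q x → (q = QuotientGroup.mk g ∨
            ∃ s ∈ Sb, q = s * QuotientGroup.mk g) →
            ∃ g' ∈ ball (cay S) 1 (r + 1), f g' = p := by
          intro q hq1 hq2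
          obtain ⟨g', h1, h2⟩ := cc_surj q (p.2 * a⁻¹ * cc N 1)
          refine ⟨g', ?_, ?_⟩
          · apply mem_ball_succ_of_adj _ hg
            by_cases he : g = g'
            · exact Or.inl he
            · right
              rw [cay_adj' hS hS', h1]
              exact ⟨he, hq2⟩
          · show (φ (QuotientGroup.mk g') x, cc N g' * (cc N 1)⁻¹ * a) = p
            rw [h1, ← hq1, h2]
            ext1
            · rfl
            · show p.2 * a⁻¹ * cc N 1 * (cc N 1)⁻¹ * a = p.2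
              group
        unfold GG at ha
        rw [SimpleGraph.fromRel_adj] at ha
        rcases ha.2 with (h1 | ⟨s, hs, h1⟩) | (h1 | ⟨s, hs, h1⟩)
        · exact hsuff _ h1.symm (Or.inl rfl)
        · refine hsuff (s * QuotientGroup.mk g) ?_ (Or.inr ⟨s, hs, rfl⟩)
          rw [h1, ← hmul s hs _ hqg]
        · exact hsuff _ h1 (Or.inl rfl)
        · refine hsuff (s⁻¹ * QuotientGroup.mk g) ?_ (Or.inr ⟨s⁻¹, hSb s hs, rfl⟩)
          exact hmul' s hs _ hqg _ h1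
  exact sameBall_of_map f hf1 (hmap r hr)
    (fun g hg h hh => hfinj g (ball_mono _ _ hr hg) h (ball_mono _ _ hr hh))
    (hsurj r hr)
    (fun g hg h hh => hadj g (ball_mono _ _ hr hg) h (ball_mono _ _ hr hh))

theorem localLimit_of_sof [Finite N] (hQ : Sof (Γ ⧸ N)) {Sb : Finset (Γ ⧸ N)} {S : Finset Γ}
    (hS : ∀ g, g ∈ S ↔ g ≠ 1 ∧ ((QuotientGroup.mk g : Γ ⧸ N) = 1 ∨
      (QuotientGroup.mk g : Γ ⧸ N) ∈ Sb)) (hS' : ∀ s ∈ S, s⁻¹ ∈ S)
    (hSb : ∀ s ∈ Sb, s⁻¹ ∈ Sb) : LocalLimit (cay S) 1 := by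
  have _ : Fintype N := Fintype.ofFinite N
  let F : ℕ → Finset (Γ ⧸ N) := fun k => insert 1 (Sb ∪ BB Sb (k + 1) ∪
    (BB Sb (k + 1) ×ˢ BB Sb (k + 1)).image fun q => q.1⁻¹ * q.2)
  have H : ∀ k : ℕ, ∃ (n : ℕ) (φ : Γ ⧸ N → Equiv.Perm (Fin n)) (V₀ : Finset (Fin n)), 0 < n ∧
      (1 - 1 / ((k : ℝ) + 1)) * (n : ℝ) ≤ (V₀.card : ℝ) ∧ ∀ x ∈ V₀,
        (∀ g ∈ F k, ∀ h ∈ F k, φ (g * h) x = φ g (φ h x)) ∧
        (∀ g ∈ F k, g ≠ 1 → φ g x ≠ x) := by
    intro k
    exact sof_good hQ (F k) (by simp [F]) (by positivity)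
  choose n φ V₀ hn hV₀ hgood using H
  refine ⟨fun k => Fin (n k) × N, fun k => inferInstance, fun k => ?_,
    fun k => GG N Sb (φ k), fun r => ?_⟩
  · have : Nonempty (Fin (n k)) := ⟨⟨0, hn k⟩⟩
    exact inferInstance
  · have hlow : ∀ k, r ≤ k → 1 - 1 / ((k : ℝ) + 1) ≤
        ((Finset.univ.filter fun v => SameBall (GG N Sb (φ k)) v (cay S) 1 r).card : ℝ) /
          (Fintype.card (Fin (n k) × N) : ℝ) := by
      intro k hk
      have hc : (0 : ℝ) < Fintype.card (Fin (n k) × N) := by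
        have : Nonempty (Fin (n k)) := ⟨⟨0, hn k⟩⟩
        exact_mod_cast Fintype.card_pos
      rw [le_div_iff₀ hc]
      have h1 : (V₀ k ×ˢ (Finset.univ : Finset N)).card ≤
          (Finset.univ.filter fun v => SameBall (GG N Sb (φ k)) v (cay S) 1 r).card := by
        apply Finset.card_le_card
        rintro ⟨x, a⟩ hxa
        rw [Finset.mem_product] at hxa
        rw [Finset.mem_filter]
        refine ⟨Finset.mem_univ _, ?_⟩
        refine good_point hS hS' hSb (φ k) k (F k) (by simp [F]) ?_ ?_ ?_ x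
          (hgood k x hxa.1).1 (hgood k x hxa.1).2 a r hk
        · intro q hq
          simp only [F, Finset.mem_insert, Finset.mem_union]
          exact Or.inr (Or.inl (Or.inr hq))
        · intro q hq
          simp only [F, Finset.mem_insert, Finset.mem_union]
          exact Or.inr (Or.inl (Or.inl hq))
        · intro q hq q' hq'
          simp only [F, Finset.mem_insert, Finset.mem_union, Finset.mem_image]
          exact Or.inr (Or.inr ⟨(q, q'), by simp [hq, hq'], rfl⟩)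
      rw [Finset.card_product, Finset.card_univ] at h1
      have h2 : ((V₀ k).card : ℝ) * (Fintype.card N : ℝ) ≤
          ((Finset.univ.filter fun v => SameBall (GG N Sb (φ k)) v (cay S) 1 r).card : ℝ) := by
        exact_mod_cast h1
      refine le_trans ?_ h2
      rw [Fintype.card_prod, Fintype.card_fin]
      push_cast
      rw [← mul_assoc]
      exact mul_le_mul_of_nonneg_right (hV₀ k) (by positivity)
    have hup : ∀ k, ((Finset.univ.filter fun v =>
        SameBall (GG N Sb (φ k)) v (cay S) 1 r).card : ℝ) /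
          (Fintype.card (Fin (n k) × N) : ℝ) ≤ 1 := by
      intro k
      apply div_le_one_of_le₀
      · exact_mod_cast (Finset.card_filter_le _ _).trans (le_of_eq Finset.card_univ)
      · positivity
    have hlim : Tendsto (fun k : ℕ => 1 - 1 / ((k : ℝ) + 1)) atTop (𝓝 1) := by
      have := (tendsto_const_nhds (x := (1 : ℝ)) (f := atTop (α := ℕ))).sub
        (tendsto_one_div_add_atTop_nhds_zero_nat (𝕜 := ℝ))
      simpa using this
    refine tendsto_of_tendsto_of_tendsto_of_le_of_le' hlim tendsto_const_nhds ?_ ?_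
    · filter_upwards [eventually_ge_atTop r] with k hk using hlow k hk
    · exact Eventually.of_forall hup

end

end

end Pool.Agent.Helper536_UC
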