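import Pool.Agent.Helper536_UC.Lab
import Pool.Agent.Helper536_UC.Lim
import Pool.Agent.helper987_SE.Stm

/-!
# Reduction to a finitely generated subgroup
-/

set_option autoImplicit false
set_option maxHeartbeats 1000000

open Filter Topology
open scoped Classical

namespace Pool.Agent.Helper536_UC

open Pool.Agent.helper987_SE

noncomputable section

theorem sof_of_inj {A B : Type} [Group A] [Group B] (f : A →* B) (hf : Function.Injective f)
    (hB : Sof B) : Sof A := by
  intro F ε hε
  obtain ⟨n, φ, h1, h2⟩ := hB (F.image f) ε hε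
  refine ⟨n, fun a => φ (f a), fun g hg h hh => ?_, fun g hg hg1 => ?_⟩
  · have := h1 (f g) (Finset.mem_image_of_mem f hg) (f h) (Finset.mem_image_of_mem f hh)
    rw [← map_mul] at this
    exact this
  · exact h2 (f g) (Finset.mem_image_of_mem f hg)
      (fun e => hg1 (hf (by rw [e, map_one])))

theorem reduction {G : Type} [Group G] (N : Subgroup G) [N.Normal] [Finite N]
    (hQ : Sof (G ⧸ N)) (hG : ¬ Sof G) :
    ∃ (Γ : Type) (_ : Group Γ) (S : Finset Γ), GenSet S ∧ ¬ Sofic Γ ∧ LocalLimit (cay S) 1 := by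
  unfold Sof at hG
  push Not at hG
  obtain ⟨F, ε, hε, hF⟩ := hG
  let T : Set G := (F : Set G)
  let H : Subgroup G := Subgroup.closure T
  let N' : Subgroup H := N.subgroupOf H
  have hfin : Finite N' := by
    have : Function.Injective (fun x : N' => (⟨(x : H), x.2⟩ : N)) := by
      intro x y hxy
      have := congrArg Subtype.val hxy
      exact Subtype.ext (Subtype.ext this)
    exact Finite.of_injective _ this
  -- the quotient is sofic
  have hQ' : Sof (H ⧸ N') := by
    have hle : N' ≤ N.comap H.subtype := le_refl _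
    refine sof_of_inj (QuotientGroup.map N' N H.subtype hle) ?_ hQ
    intro a b
    refine QuotientGroup.induction_on a (fun a => ?_)
    refine QuotientGroup.induction_on b (fun b => ?_)
    intro hab
    have hab' : (QuotientGroup.mk (a : G) : G ⧸ N) = QuotientGroup.mk (b : G) := hab
    have h1 := QuotientGroup.eq.1 hab'
    exact QuotientGroup.eq.2 h1
  have hH : ¬ Sof H := by
    intro hs
    have hTH : ∀ g ∈ F, g ∈ H := fun g hg => Subgroup.subset_closure hg
    obtain ⟨n, φ, h1, h2⟩ := hs (F.subtype (· ∈ H)) ε hε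
    let φ' : G → Equiv.Perm (Fin n) := fun g => if h : g ∈ H then φ ⟨g, h⟩ else 1
    have hφ' : ∀ g (h : g ∈ H), φ' g = φ ⟨g, h⟩ := fun g h => dif_pos h
    have h3 := hF n φ' (by
      intro g hg h hh
      have h4 := h1 ⟨g, hTH g hg⟩ (by simpa using hg) ⟨h, hTH h hh⟩ (by simpa using hh)
      rw [hφ' g (hTH g hg), hφ' h (hTH h hh), hφ' (g * h) (H.mul_mem (hTH g hg) (hTH h hh))]
      exact h4)
    obtain ⟨g, hg, hg1, h4⟩ := h3
    rw [hφ' g (hTH g hg)] at h4
    have h5 := h2 ⟨g, hTH g hg⟩ (by simpa using hg)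
      (fun e => hg1 (congrArg Subtype.val e))
    exact absurd h5 (not_le.2 h4)
  have hS' : ¬ Sofic H := fun h => hH (sof_of_sofic H h)
  -- the generating set
  let T' : Finset H := F.subtype (· ∈ H)
  let Sb : Finset (H ⧸ N') := (T' ∪ T'.image (fun g => g⁻¹)).image (fun g => (QuotientGroup.mk g))
  have hSb : ∀ s ∈ Sb, s⁻¹ ∈ Sb := by
    intro s hs
    obtain ⟨g, hg, rfl⟩ := Finset.mem_image.1 hs
    rw [← QuotientGroup.mk_inv]
    apply Finset.mem_image_of_mem (fun g : H => (QuotientGroup.mk g : H ⧸ N'))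
    rw [Finset.mem_union, Finset.mem_image] at hg ⊢
    rcases hg with hg | ⟨g', hg', rfl⟩
    · right; exact ⟨g, hg, rfl⟩
    · left; rw [inv_inv]; exact hg'
  let SS' : Set H := {g | g ≠ 1 ∧ ((QuotientGroup.mk g : H ⧸ N') = 1 ∨
    (QuotientGroup.mk g : H ⧸ N') ∈ Sb)}
  have hSfin : SS'.Finite := by
    have h1 : ((insert 1 (Sb : Set (H ⧸ N'))) ×ˢ (Set.univ : Set N')).Finite :=
      Set.Finite.prod (Set.Finite.insert _ Sb.finite_toSet) Set.finite_univ
    refine Set.Finite.of_injOn (f := fun g : H => ((QuotientGroup.mk g : H ⧸ N'), cc N' g))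
      ?_ ?_ h1
    · rintro g ⟨hg1, hg2⟩
      refine ⟨?_, Set.mem_univ _⟩
      rcases hg2 with hg2 | hg2
      · exact Or.inl hg2
      · exact Or.inr (by simpa using hg2)
    · intro g _ h _ e
      exact cc_inj (congrArg Prod.fst e) (congrArg Prod.snd e)
  let S : Finset H := hSfin.toFinset
  have hSmem : ∀ g, g ∈ S ↔ g ≠ 1 ∧ ((QuotientGroup.mk g : H ⧸ N') = 1 ∨
      (QuotientGroup.mk g : H ⧸ N') ∈ Sb) := by
    intro g
    rw [Set.Finite.mem_toFinset]
    exact Iff.rfl
  have hSinv : ∀ s ∈ S, s⁻¹ ∈ S := by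
    intro s hs
    rw [hSmem] at hs ⊢
    refine ⟨inv_ne_one.2 hs.1, ?_⟩
    rw [QuotientGroup.mk_inv]
    rcases hs.2 with h | h
    · left; rw [h, inv_one]
    · right; exact hSb _ h
  refine ⟨H, inferInstance, S, ⟨hSinv, ?_, ?_⟩, hS', localLimit_of_sof hQ' hSmem hSinv hSb⟩
  · rw [hSmem]; exact fun h => h.1 rfl
  · rw [eq_top_iff]
    have h1 : Subgroup.closure ((↑) ⁻¹' T : Set (Subgroup.closure T)) = ⊤ :=
      Subgroup.closure_closure_coe_preimage
    have h2 : (⊤ : Subgroup H) = Subgroup.closure ((↑) ⁻¹' T : Set H) := h1.symm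
    rw [h2, Subgroup.closure_le]
    intro g hg
    by_cases hg1 : g = 1
    · rw [hg1]; exact Subgroup.one_mem _
    · apply Subgroup.subset_closure
      rw [Finset.mem_coe, hSmem]
      refine ⟨hg1, Or.inr ?_⟩
      apply Finset.mem_image_of_mem (fun g : H => (QuotientGroup.mk g : H ⧸ N'))
      rw [Finset.mem_union]
      left
      show g ∈ F.subtype (· ∈ H)
      rw [Finset.mem_subtype]
      exact hg

theorem main_of (h : ¬ Frozen) :
    ∃ (Γ : Type) (_ : Group Γ) (S : Finset Γ), GenSet S ∧ ¬ Sofic Γ ∧ LocalLimit (cay S) 1 := by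
  by_contra hcon
  apply h
  intro G _ N _ hN hQ
  by_contra hG
  have hfin : Finite N := Nat.finite_of_card_ne_zero (by rw [hN]; norm_num)
  exact hcon (reduction N hQ hG)

end

end Pool.Agent.Helper536_UC
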